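import Pool.Agent.P8H38.SW.Tri

set_option autoImplicit false

/-!
# SW/D2 (helper38): dimension two
-/

open Module

namespace Pool.Agent.P8H38.SW

open Pool.Agent.P8H30.SW

theorem trip_ne {W : Type} [AddCommGroup W] [Module ℂ W] {h e f : Module.End ℂ W}
    (ht : Trip h e f) (he : e ≠ 0) : h ≠ 0 ∧ f ≠ 0 := by
  have hh : h ≠ 0 := by
    intro h0
    have h1 := ht.he
    rw [h0, zero_mul, mul_zero, sub_zero] at h1
    have h2 : (2 : ℂ) • e = 0 := h1.symm
    exact he ((smul_eq_zero.1 h2).resolve_left two_ne_zero)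
  refine ⟨hh, fun h0 => hh ?_⟩
  have h1 := ht.ef
  rw [h0, zero_mul, mul_zero, sub_zero] at h1
  exact h1.symm

theorem trip_li {W : Type} [AddCommGroup W] [Module ℂ W] {h e f : Module.End ℂ W}
    (ht : Trip h e f) (he : e ≠ 0) : LinearIndependent ℂ ![h, e, f] := by
  obtain ⟨hh, hf⟩ := trip_ne ht he
  rw [Fintype.linearIndependent_iff]
  intro g hg
  rw [Fin.sum_univ_three] at hg
  simp only [Matrix.cons_val_zero, Matrix.cons_val_one, Matrix.cons_val] at hg
  have h1 : (2 * g 1) • e - (2 * g 2) • f = 0 := by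
    have h2 : h * (g 0 • h + g 1 • e + g 2 • f) - (g 0 • h + g 1 • e + g 2 • f) * h = 0 := by
      rw [hg, mul_zero, zero_mul, sub_zero]
    have h3 : h * (g 0 • h + g 1 • e + g 2 • f) - (g 0 • h + g 1 • e + g 2 • f) * h
        = g 1 • (h * e - e * h) + g 2 • (h * f - f * h) := by
      simp only [mul_add, add_mul, mul_smul_comm, smul_mul_assoc]
      module
    rw [h3, ht.he, ht.hf] at h2
    rw [← h2]
    module
  have h4 : (4 * g 1) • e + (4 * g 2) • f = 0 := by
    have h2 : h * ((2 * g 1) • e - (2 * g 2) • f) - ((2 * g 1) • e - (2 * g 2) • f) * h = 0 := by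
      rw [h1, mul_zero, zero_mul, sub_zero]
    have h3 : h * ((2 * g 1) • e - (2 * g 2) • f) - ((2 * g 1) • e - (2 * g 2) • f) * h
        = (2 * g 1) • (h * e - e * h) - (2 * g 2) • (h * f - f * h) := by
      simp only [mul_sub, sub_mul, mul_smul_comm, smul_mul_assoc]
      module
    rw [h3, ht.he, ht.hf] at h2
    rw [← h2]
    module
  have h5 : (8 * g 1) • e = 0 := by
    have : (8 * g 1) • e = (2 : ℂ) • ((2 * g 1) • e - (2 * g 2) • f)
      + ((4 * g 1) • e + (4 * g 2) • f) := by module
    rw [this, h1, h4, smul_zero, add_zero]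
  have g1 : g 1 = 0 := by
    have := (smul_eq_zero.1 h5).resolve_right he
    simpa using this
  have g2 : g 2 = 0 := by
    rw [g1, mul_zero, zero_smul, zero_add] at h4
    have := (smul_eq_zero.1 h4).resolve_right hf
    simpa using this
  have g0 : g 0 = 0 := by
    rw [g1, g2, zero_smul, zero_smul, add_zero, add_zero] at hg
    exact (smul_eq_zero.1 hg).resolve_right hh
  intro i
  fin_cases i
  · exact g0
  · exact g1
  · exact g2

theorem d2 : S_D2 := by
  intro W _ _ _ ω L hω hW hL hS hI
  let b : Basis (Fin 2) ℂ W := Module.finBasisOfFinrankEq ℂ W hW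
  have hc : ω (b 0) (b 1) ≠ 0 := by
    intro h0
    refine b.ne_zero 0 (hω.nd _ fun v => ?_)
    have hv := b.sum_repr v
    rw [Fin.sum_univ_two] at hv
    rw [← hv]
    simp [hω.alt, h0]
  have htr : ∀ x, Skew ω x → b.repr (x (b 1)) 1 = -b.repr (x (b 0)) 0 := by
    intro x hx
    have h1 := hx (b 0) (b 1)
    have e0 := b.sum_repr (x (b 0))
    have e1 := b.sum_repr (x (b 1))
    rw [Fin.sum_univ_two] at e0 e1
    rw [← e0, ← e1] at h1
    simp only [map_add, LinearMap.add_apply, map_smul, LinearMap.smul_apply, hω.alt, smul_eq_mul,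
      mul_zero, add_zero, zero_add] at h1
    have h2 : (b.repr (x (b 1)) 1 + b.repr (x (b 0)) 0) * ω (b 0) (b 1) = 0 := by
      linear_combination h1
    exact eq_neg_of_add_eq_zero_left ((mul_eq_zero.1 h2).resolve_right hc)
  have htr0 : ∀ x ∈ L, LinearMap.trace ℂ W x = 0 := by
    intro x hx
    rw [LinearMap.trace_eq_matrix_trace ℂ b, Matrix.trace, Fin.sum_univ_two]
    simp only [Matrix.diag_apply, LinearMap.toMatrix_apply]
    rw [htr x (hS hx)]
    ring
  obtain ⟨h, hhL, e, heL, f, hfL, ht, he0⟩ := tri W L hL hI htr0 (by omega)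
  have hle : Submodule.span ℂ {h, e, f} ≤ L := by
    rw [Submodule.span_le]
    rintro z (hz | hz | hz)
    · rw [hz]; exact hhL
    · rw [hz]; exact heL
    · rw [hz]; exact hfL
  let Φ : (SP ω) →ₗ[ℂ] (Fin 3 → ℂ) :=
    { toFun := fun x => ![b.repr (x.1 (b 0)) 0, b.repr (x.1 (b 0)) 1, b.repr (x.1 (b 1)) 0]
      map_add' := by
        intro x y
        ext i
        fin_cases i <;> simp
      map_smul' := by
        intro c x
        ext i
        fin_cases i <;> simp }
  have hΦ : Function.Injective Φ := by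
    rw [injective_iff_map_eq_zero]
    intro x hx
    have h0 : b.repr (x.1 (b 0)) 0 = 0 := congrFun hx 0
    have h1 : b.repr (x.1 (b 0)) 1 = 0 := congrFun hx 1
    have h2 : b.repr (x.1 (b 1)) 0 = 0 := congrFun hx 2
    have h3 : b.repr (x.1 (b 1)) 1 = 0 := by rw [htr x.1 x.2, h0, neg_zero]
    apply Subtype.ext
    refine b.ext fun i => ?_
    have hs := b.sum_repr (x.1 (b i))
    rw [Fin.sum_univ_two] at hs
    rw [← hs]
    fin_cases i
    · simp [h0, h1]
    · simp [h2, h3]
  have h3 : finrank ℂ (SP ω) ≤ 3 := by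
    have := LinearMap.finrank_le_finrank_of_injective hΦ
    simpa using this
  have h4 : finrank ℂ (Submodule.span ℂ {h, e, f}) = 3 := by
    have := finrank_span_eq_card (trip_li ht he0)
    have hr : Set.range ![h, e, f] = {h, e, f} := by
      ext z
      simp only [Set.mem_range, Set.mem_insert_iff, Set.mem_singleton_iff]
      constructor
      · rintro ⟨i, rfl⟩
        fin_cases i <;> simp
      · rintro (hz | hz | hz)
        · exact ⟨0, hz.symm⟩
        · exact ⟨1, hz.symm⟩
        · exact ⟨2, hz.symm⟩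
    rw [hr] at this
    simpa using this
  have h5 : Submodule.span ℂ {h, e, f} = SP ω :=
    Submodule.eq_of_le_of_finrank_le (hle.trans hS) (by omega)
  have h6 : L = SP ω := le_antisymm hS (h5 ▸ hle)
  exact ⟨h6, h, e, f, ht, h6.trans h5.symm⟩

end Pool.Agent.P8H38.SW
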