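import Pool.Agent.P8H30.SW.Stm

set_option autoImplicit false

/-!
# SW/SI (helper38): `sp(W)` is simple, the span of a triple is simple
-/

open Module

namespace Pool.Agent.P8H38.SW

open Pool.Agent.P8H30.SW

section sp

variable {W : Type} [AddCommGroup W] [Module ℂ W] {ω : W →ₗ[ℂ] W →ₗ[ℂ] ℂ}

theorem Sym.sk (hω : Sym ω) (u v : W) : ω u v = -ω v u := by
  have h := hω.alt (u + v)
  simp only [map_add, LinearMap.add_apply, hω.alt u, hω.alt v] at h
  linear_combination h

/-- the operators `S(u, v) w = ω (u, w) v + ω (v, w) u` -/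
noncomputable def SS (ω : W →ₗ[ℂ] W →ₗ[ℂ] ℂ) (u v : W) : Module.End ℂ W :=
  (ω u).smulRight v + (ω v).smulRight u

theorem SS_apply (u v w : W) : SS ω u v w = ω u w • v + ω v w • u := rfl

theorem SS_symm (u v : W) : SS ω u v = SS ω v u := by
  ext w
  rw [SS_apply, SS_apply, add_comm]

theorem SS_zero (u : W) : SS ω u 0 = 0 := by
  ext w
  rw [SS_apply]
  simp

theorem SS_smul (c : ℂ) (u v : W) : SS ω u (c • v) = c • SS ω u v := by
  ext w
  rw [LinearMap.smul_apply, SS_apply, SS_apply, map_smul, LinearMap.smul_apply, smul_eq_mul]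
  module

theorem SS_skew (hω : Sym ω) (u v : W) : Skew ω (SS ω u v) := by
  intro w w'
  rw [SS_apply, SS_apply]
  simp only [map_add, map_smul, LinearMap.add_apply, LinearMap.smul_apply, smul_eq_mul]
  rw [Sym.sk hω w v, Sym.sk hω w u]
  ring

theorem SS_mem (hω : Sym ω) (u v : W) : SS ω u v ∈ SP ω := SS_skew hω u v

theorem br_SS (x : Module.End ℂ W) (hx : Skew ω x) (u v : W) :
    x * SS ω u v - SS ω u v * x = SS ω (x u) v + SS ω u (x v) := by
  ext w
  rw [LinearMap.sub_apply, Module.End.mul_apply, Module.End.mul_apply, LinearMap.add_apply,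
    SS_apply, SS_apply, SS_apply, SS_apply, map_add, map_smul, map_smul]
  have h1 : ω u (x w) = -ω (x u) w := by linear_combination hx u w
  have h2 : ω v (x w) = -ω (x v) w := by linear_combination hx v w
  rw [h1, h2]
  module

theorem SS_gen [FiniteDimensional ℂ W] (hω : Sym ω) (x : Module.End ℂ W) (hx : Skew ω x) :
    x ∈ Submodule.span ℂ {z | ∃ u v, z = SS ω u v} := by
  classical
  have hnd : LinearMap.BilinForm.Nondegenerate (ω : LinearMap.BilinForm ℂ W) := by
    refine ⟨fun u hu => hω.nd u hu, fun u hu => hω.nd u fun v => ?_⟩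
    rw [Sym.sk hω, hu, neg_zero]
  let b := finBasis ℂ W
  let b' := LinearMap.BilinForm.dualBasis (ω : LinearMap.BilinForm ℂ W) hnd b
  have hb : ∀ i j, ω (b' i) (b j) = if j = i then 1 else 0 := fun i j =>
    LinearMap.BilinForm.apply_dualBasis_left hnd b i j
  have e1 : ∀ w : W, ∑ i, ω (b' i) w • b i = w := by
    intro w
    have h : (∑ i, (ω (b' i)).smulRight (b i)) = (LinearMap.id : W →ₗ[ℂ] W) := by
      refine b.ext fun j => ?_
      simp [hb]
    have := LinearMap.congr_fun h w
    simpa using this
  have e2 : ∀ w : W, ∑ i, ω (b i) w • b' i = -w := by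
    intro w
    have h : ω (∑ i, ω (b i) w • b' i + w) = 0 := by
      refine b.ext fun j => ?_
      rw [map_add, map_sum, LinearMap.add_apply, LinearMap.sum_apply]
      simp only [map_smul, LinearMap.smul_apply, hb, smul_eq_mul, mul_ite, mul_one, mul_zero,
        Finset.sum_ite_eq, Finset.mem_univ, if_true, LinearMap.zero_apply]
      rw [Sym.sk hω w (b j)]
      ring
    have h2 := hω.nd _ fun v => by rw [h, LinearMap.zero_apply]
    exact eq_neg_of_add_eq_zero_left h2
  have key : (2 : ℂ) • x = ∑ i, SS ω (b' i) (x (b i)) := by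
    ext w
    rw [LinearMap.sum_apply]
    simp only [SS_apply]
    rw [Finset.sum_add_distrib]
    have h1 : ∑ i, ω (b' i) w • x (b i) = x w := by
      conv_rhs => rw [← e1 w]
      rw [map_sum]
      simp only [map_smul]
    have h2 : ∑ i, ω (x (b i)) w • b' i = x w := by
      have h3 : ∀ i, ω (x (b i)) w • b' i = -(ω (b i) (x w) • b' i) := fun i => by
        have : ω (x (b i)) w = -ω (b i) (x w) := by linear_combination hx (b i) w
        rw [this, neg_smul]
      rw [Finset.sum_congr rfl fun i _ => h3 i, Finset.sum_neg_distrib, e2, neg_neg]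
    rw [h1, h2, LinearMap.smul_apply, two_smul]
  have h3 : x = (1 / 2 : ℂ) • ∑ i, SS ω (b' i) (x (b i)) := by
    rw [← key, smul_smul]
    norm_num
  rw [h3]
  exact Submodule.smul_mem _ _ (Submodule.sum_mem _ fun i _ => Submodule.subset_span ⟨_, _, rfl⟩)

theorem si : S_SI := by
  intro W _ _ _ ω hω
  constructor
  · intro I hI hbr
    by_cases h0 : I = ⊥
    · exact Or.inl h0
    · refine Or.inr (le_antisymm hI ?_)
      obtain ⟨x, hxI, hx0⟩ := Submodule.exists_mem_ne_zero_of_ne_bot h0
      have hx : Skew ω x := hI hxI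
      -- a vector with `ω (u, x u) ≠ 0`
      obtain ⟨u, hu⟩ : ∃ u, ω u (x u) ≠ 0 := by
        by_contra hcon
        push Not at hcon
        apply hx0
        ext v
        rw [LinearMap.zero_apply]
        refine hω.nd _ fun w => ?_
        have h1 := hcon (v + w)
        simp only [map_add, LinearMap.add_apply, hcon v, hcon w] at h1
        have h2 := hx v w
        have h3 : ω w (x v) = -ω (x v) w := Sym.sk hω _ _
        have h4 : ω v (x w) = -ω (x v) w := by linear_combination h2
        rw [h3, h4] at h1
        linear_combination (-1 / 2 : ℂ) * h1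
      have hs := SS_skew hω u u
      have hsm := SS_mem hω u u
      -- `S(u, u) ∈ I`
      have h1 : SS ω u u * x - x * SS ω u u ∈ I := hbr _ hsm _ hxI
      have e1 : SS ω u u * x - x * SS ω u u = -((2 : ℂ) • SS ω u (x u)) := by
        have h2 := br_SS x hx u u
        rw [SS_symm (x u) u] at h2
        rw [← neg_sub, h2, two_smul]
      have h3 : SS ω u u * SS ω u (x u) - SS ω u (x u) * SS ω u u =
          (2 * ω u (x u)) • SS ω u u := by
        rw [br_SS _ hs]
        have h4 : SS ω u u u = 0 := by
          rw [SS_apply, hω.alt u]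
          simp
        have h5 : SS ω u u (x u) = (2 * ω u (x u)) • u := by
          rw [SS_apply]
          module
        rw [h4, h5, SS_symm 0, SS_zero, zero_add, SS_smul]
      have h6 : SS ω u (x u) ∈ I := by
        have h7 : SS ω u (x u) = (-(1 / 2) : ℂ) • (SS ω u u * x - x * SS ω u u) := by
          rw [e1]
          module
        rw [h7]
        exact I.smul_mem _ h1
      have h8 : SS ω u u ∈ I := by
        have h9 := hbr _ hsm _ h6
        rw [h3] at h9
        have h10 : SS ω u u = (1 / (2 * ω u (x u))) • ((2 * ω u (x u)) • SS ω u u) := by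
          rw [smul_smul, one_div, inv_mul_cancel₀ (mul_ne_zero two_ne_zero hu), one_smul]
        rw [h10]
        exact I.smul_mem _ h9
      -- `a` with `ω (a, u) = 1`
      have hu0 : u ≠ 0 := by
        rintro rfl
        apply hu
        simp
      obtain ⟨a, ha⟩ : ∃ a, ω a u = 1 := by
        obtain ⟨c, hc⟩ : ∃ c, ω u c ≠ 0 := by
          by_contra hcon
          push Not at hcon
          exact hu0 (hω.nd u hcon)
        refine ⟨(-(ω u c)⁻¹) • c, ?_⟩
        rw [map_smul, LinearMap.smul_apply, Sym.sk hω c u, smul_eq_mul]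
        field_simp
      have hall : ∀ w : W, ∃ b, SS ω a b u = w := by
        intro w
        refine ⟨w - (ω w u / 2) • a, ?_⟩
        rw [SS_apply, ha, map_sub, map_smul, LinearMap.sub_apply, LinearMap.smul_apply, ha,
          smul_eq_mul]
        module
      have h11 : ∀ w, SS ω w u ∈ I := by
        intro w
        obtain ⟨b, hb⟩ := hall w
        have h12 := hbr _ (SS_mem hω a b) _ h8
        rw [br_SS _ (SS_skew hω a b), hb, SS_symm u w, ← two_smul ℂ] at h12
        have h13 : SS ω w u = (1 / 2 : ℂ) • ((2 : ℂ) • SS ω w u) := by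
          rw [smul_smul]
          norm_num
        rw [h13]
        exact I.smul_mem _ h12
      have h14 : ∀ w w', SS ω w w' ∈ I := by
        intro w w'
        obtain ⟨b, hb⟩ := hall w'
        have h12 := hbr _ (SS_mem hω a b) _ (h11 w)
        rw [br_SS _ (SS_skew hω a b), hb] at h12
        exact (I.add_mem_iff_right (h11 _)).1 h12
      intro y hy
      refine (Submodule.span_le.2 ?_) (SS_gen hω y hy)
      rintro _ ⟨w, w', rfl⟩
      exact h14 w w'
  · intro y hy
    refine (Submodule.span_le.2 ?_) (SS_gen hω y hy)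
    rintro _ ⟨w, u, rfl⟩
    by_cases hu0 : u = 0
    · rw [hu0, SS_zero]
      exact Submodule.zero_mem _
    · obtain ⟨a, ha⟩ : ∃ a, ω a u = 1 := by
        obtain ⟨c, hc⟩ : ∃ c, ω u c ≠ 0 := by
          by_contra hcon
          push Not at hcon
          exact hu0 (hω.nd u hcon)
        refine ⟨(-(ω u c)⁻¹) • c, ?_⟩
        rw [map_smul, LinearMap.smul_apply, Sym.sk hω c u, smul_eq_mul]
        field_simp
      have hb : SS ω a (w - (ω w u / 2) • a) u = w := by
        rw [SS_apply, ha, map_sub, map_smul, LinearMap.sub_apply, LinearMap.smul_apply, ha,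
          smul_eq_mul]
        module
      have h1 := br_SS _ (SS_skew hω a (w - (ω w u / 2) • a)) u u
      rw [hb, SS_symm u w, ← two_smul ℂ] at h1
      have h13 : SS ω w u = (1 / 2 : ℂ) • ((2 : ℂ) • SS ω w u) := by
        rw [smul_smul]
        norm_num
      rw [h13, ← h1]
      exact Submodule.smul_mem _ _ (Submodule.subset_span ⟨_, SS_mem hω _ _, _, SS_mem hω _ _, rfl⟩)

end sp

section sl2

variable {W : Type} [AddCommGroup W] [Module ℂ W] {h e f : Module.End ℂ W}

theorem mem_tri {y : Module.End ℂ W} : y ∈ Submodule.span ℂ ({h, e, f} : Set (Module.End ℂ W)) ↔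
    ∃ a b c : ℂ, y = a • h + b • e + c • f := by
  rw [Submodule.mem_span_insert]
  constructor
  · rintro ⟨a, z, hz, rfl⟩
    rw [Submodule.mem_span_pair] at hz
    obtain ⟨b, c, rfl⟩ := hz
    exact ⟨a, b, c, by abel⟩
  · rintro ⟨a, b, c, rfl⟩
    exact ⟨a, b • e + c • f, Submodule.mem_span_pair.2 ⟨b, c, rfl⟩, by abel⟩

theorem si2 : S_SI2 := by
  intro W _ _ h e f ht he
  have mh : h ∈ Submodule.span ℂ ({h, e, f} : Set (Module.End ℂ W)) :=
    Submodule.subset_span (by simp)
  have me : e ∈ Submodule.span ℂ ({h, e, f} : Set (Module.End ℂ W)) :=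
    Submodule.subset_span (by simp)
  have mf : f ∈ Submodule.span ℂ ({h, e, f} : Set (Module.End ℂ W)) :=
    Submodule.subset_span (by simp)
  constructor
  · intro I hI hbr
    by_cases h0 : I = ⊥
    · exact Or.inl h0
    · refine Or.inr (le_antisymm hI ?_)
      obtain ⟨y, hyI, hy0⟩ := Submodule.exists_mem_ne_zero_of_ne_bot h0
      have scal : ∀ (c : ℂ) (z : Module.End ℂ W), c ≠ 0 → c • z ∈ I → z ∈ I := by
        intro c z hc hz
        have := I.smul_mem c⁻¹ hz
        rwa [smul_smul, inv_mul_cancel₀ hc, one_smul] at this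
      have two : (2 : ℂ) ≠ 0 := two_ne_zero
      have H1 : h ∈ I → ∀ z ∈ ({h, e, f} : Set (Module.End ℂ W)), z ∈ I := by
        intro hh z hz
        rcases hz with rfl | rfl | rfl
        · exact hh
        · have h1 := hbr _ me _ hh
          rw [← neg_sub, ht.he] at h1
          exact scal 2 _ two ((I.neg_mem_iff).1 h1)
        · have h1 := hbr _ mf _ hh
          rw [← neg_sub, ht.hf, neg_neg] at h1
          exact scal 2 _ two h1
      have H2 : e ∈ I → h ∈ I := by
        intro hh
        have h1 := hbr _ mf _ hh
        rw [← neg_sub, ht.ef] at h1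
        exact (I.neg_mem_iff).1 h1
      have H3 : f ∈ I → h ∈ I := by
        intro hh
        have h1 := hbr _ me _ hh
        rwa [ht.ef] at h1
      have hhI : h ∈ I := by
        obtain ⟨a, b, c, rfl⟩ := mem_tri.1 (hI hyI)
        have e1 : h * (a • h + b • e + c • f) - (a • h + b • e + c • f) * h =
            (2 * b) • e - (2 * c) • f := by
          have h1 := ht.he
          have h2 := ht.hf
          have h3 : h * (a • h + b • e + c • f) - (a • h + b • e + c • f) * h =
              b • (h * e - e * h) + c • (h * f - f * h) := by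
            simp only [mul_add, add_mul, mul_smul_comm, smul_mul_assoc]
            module
          rw [h3, h1, h2]
          module
        have h4 := hbr _ mh _ hyI
        rw [e1] at h4
        have e2 : h * ((2 * b) • e - (2 * c) • f) - ((2 * b) • e - (2 * c) • f) * h =
            (4 * b) • e + (4 * c) • f := by
          have h1 := ht.he
          have h2 := ht.hf
          have h3 : h * ((2 * b) • e - (2 * c) • f) - ((2 * b) • e - (2 * c) • f) * h =
              (2 * b) • (h * e - e * h) - (2 * c) • (h * f - f * h) := by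
            simp only [mul_sub, sub_mul, mul_smul_comm, smul_mul_assoc]
            module
          rw [h3, h1, h2]
          module
        have h5 := hbr _ mh _ h4
        rw [e2] at h5
        have hb : b • e ∈ I := by
          have h6 : b • e = (1 / 8 : ℂ) • ((2 : ℂ) • ((2 * b) • e - (2 * c) • f) +
              ((4 * b) • e + (4 * c) • f)) := by module
          rw [h6]
          exact I.smul_mem _ (I.add_mem (I.smul_mem _ h4) h5)
        have hc : c • f ∈ I := by
          have h6 : c • f = (-1 / 8 : ℂ) • ((2 : ℂ) • ((2 * b) • e - (2 * c) • f) -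
              ((4 * b) • e + (4 * c) • f)) := by module
          rw [h6]
          exact I.smul_mem _ (I.sub_mem (I.smul_mem _ h4) h5)
        by_cases hb0 : b = 0
        · by_cases hc0 : c = 0
          · have ha0 : a ≠ 0 := by
              rintro rfl
              apply hy0
              rw [hb0, hc0]
              simp
            have h7 : a • h ∈ I := by
              have h8 : a • h = (a • h + b • e + c • f) - b • e - c • f := by abel
              rw [h8]
              exact I.sub_mem (I.sub_mem hyI hb) hc
            exact scal a _ ha0 h7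
          · exact H3 (scal c _ hc0 hc)
        · exact H2 (scal b _ hb0 hb)
      exact Submodule.span_le.2 (H1 hhI)
  · refine Submodule.span_le.2 ?_
    have key : ∀ (c : ℂ) (x y z : Module.End ℂ W),
        x ∈ Submodule.span ℂ ({h, e, f} : Set (Module.End ℂ W)) →
        y ∈ Submodule.span ℂ ({h, e, f} : Set (Module.End ℂ W)) → z = c • (x * y - y * x) →
        z ∈ Submodule.span ℂ {z | ∃ x ∈ Submodule.span ℂ ({h, e, f} : Set (Module.End ℂ W)),
          ∃ y ∈ Submodule.span ℂ ({h, e, f} : Set (Module.End ℂ W)), z = x * y - y * x} := by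
      rintro c x y z hx hy rfl
      exact Submodule.smul_mem _ _ (Submodule.subset_span ⟨x, hx, y, hy, rfl⟩)
    intro z hz
    rcases hz with hz | hz | hz
    · exact key 1 e f _ me mf (by rw [hz, one_smul, ht.ef])
    · exact key (1 / 2) h e _ mh me (by rw [hz, ht.he]; module)
    · exact key (-1 / 2) h f _ mh mf (by
        have hz' : z = f := hz
        rw [hz', ht.hf]; module)

end sl2

end Pool.Agent.P8H38.SW
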