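import Pool.Agent.P8H30.SW.Stm
import Pool.Agent.Y102.V1

set_option autoImplicit false

/-!
# SW/TRI and SW/D2 (helper38)
-/

open Module LieAlgebra LieModule LieAlgebra.IsKilling

namespace Pool.Agent.P8H38.SW

open Pool.Agent.P8H30.SW

attribute [local instance 100] LieRing.ofAssociativeRing

theorem tri : S_TRI := by
  intro W _ _ _ L hL hI hT hW
  have hN : Nontrivial W := Module.nontrivial_of_finrank_pos (R := ℂ) (by omega)
  let LL : LieSubalgebra ℂ (Module.End ℂ W) :=
    { L with lie_mem' := fun {x y} hx hy => hL x hx y hy }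
  have hirr : LieModule.IsIrreducible ℂ LL W := by
    refine LieModule.IsIrreducible.mk fun N hN => ?_
    have h1 := hI N.toSubmodule fun x hx v hv => by
      have : ⁅(⟨x, hx⟩ : LL), v⁆ ∈ N := N.lie_mem hv
      exact this
    rcases h1 with h1 | h1
    · exact absurd (by simpa using h1) hN
    · simpa using h1
  have hrad : HasTrivialRadical ℂ LL :=
    hasTrivialRadical_of_isIrreducible_of_isFaithful ℂ LL W fun x => hT x.1 x.2
  have hK : IsKilling ℂ LL := inferInstance
  have hnt : Nontrivial LL := by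
    by_contra hcon
    rw [not_nontrivial_iff_subsingleton] at hcon
    have h0 : ∀ x ∈ L, x = 0 := fun x hx =>
      congrArg Subtype.val (Subsingleton.elim (⟨x, hx⟩ : LL) 0)
    obtain ⟨u, hu⟩ := exists_ne (0 : W)
    have h1 := hI (Submodule.span ℂ {u}) fun x hx v hv => by
      rw [h0 x hx, LinearMap.zero_apply]; exact Submodule.zero_mem _
    rcases h1 with h1 | h1
    · rw [Submodule.span_singleton_eq_bot] at h1
      exact hu h1
    · have h2 := finrank_span_singleton (K := ℂ) hu
      rw [h1, finrank_top] at h2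
      omega
  obtain ⟨h, e, f, t, -⟩ := Pool.Agent.Y102.S4.exists_long (L := LL)
  refine ⟨h.1, h.2, e.1, e.2, f.1, f.2, ⟨?_, ?_, ?_⟩, fun h0 => t.e_ne_zero (Subtype.ext h0)⟩
  · have h1 := congrArg Subtype.val t.lie_h_e_nsmul
    rw [two_smul ℂ, ← two_smul ℕ]
    exact h1
  · have h1 := congrArg Subtype.val t.lie_h_f_nsmul
    rw [two_smul ℂ, ← two_smul ℕ]
    exact h1
  · exact congrArg Subtype.val t.lie_e_f

end Pool.Agent.P8H38.SW
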